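import Pool.Agent.FTU.Stmts

set_option autoImplicit false

open MeasureTheory Complex ProbabilityTheory

namespace Pool.Agent.FTU.H47

open Pool.Agent.Loc (γn γ1)

theorem exp_lin {ι : Type} [Fintype ι] (c : ι → ℝ) :
    Integrable (fun y : ι → ℝ => Real.exp (∑ i, y i * c i)) (γn ι) ∧
      ∫ y, Real.exp (∑ i, y i * c i) ∂(γn ι) = Real.exp ((∑ i, c i ^ 2) / 2) := by
  have e : ∀ y : ι → ℝ, Real.exp (∑ i, y i * c i) = ∏ i, Real.exp (c i * y i) := by
    intro y
    rw [Real.exp_sum]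
    exact Finset.prod_congr rfl fun i _ => by rw [mul_comm]
  have h1 : ∀ i, Integrable (fun x => Real.exp (c i * x)) γ1 := fun i =>
    integrable_exp_mul_gaussianReal _
  constructor
  · simp_rw [e]
    exact Integrable.fintype_prod h1
  · simp_rw [e]
    rw [integral_fintype_prod_eq_prod (fun i x => Real.exp (c i * x))]
    have h2 : ∀ i, ∫ x, Real.exp (c i * x) ∂γ1 = Real.exp (c i ^ 2 / 2) := by
      intro i
      have h3 := congrFun (mgf_fun_id_gaussianReal (μ := 0) (v := 1)) (c i)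
      simpa [mgf] using h3
    simp_rw [h2]
    rw [← Real.exp_sum, Finset.sum_div]

theorem exp_aff {ι : Type} [Fintype ι] (s b K : ℝ) (a : ι → ℝ) (hb : |b| ≤ K)
    (ha : ∑ i, a i ^ 2 ≤ K) :
    Integrable (fun y : ι → ℝ => Real.exp (s * (b + ∑ i, y i * a i))) (γn ι) ∧
      ∫ y, Real.exp (s * (b + ∑ i, y i * a i)) ∂(γn ι) ≤ Real.exp (|s| * K + s ^ 2 * K / 2) := by
  have e : ∀ y : ι → ℝ, Real.exp (s * (b + ∑ i, y i * a i)) =
      Real.exp (s * b) * Real.exp (∑ i, y i * (s * a i)) := by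
    intro y
    rw [← Real.exp_add, mul_add, Finset.mul_sum]
    congr 2
    exact Finset.sum_congr rfl fun i _ => by ring
  obtain ⟨h1, h2⟩ := exp_lin (fun i => s * a i)
  refine ⟨?_, ?_⟩
  · simp_rw [e]
    exact h1.const_mul _
  · simp_rw [e]
    rw [integral_const_mul, h2, ← Real.exp_add]
    apply Real.exp_le_exp.mpr
    have h3 : s * b ≤ |s| * K := by
      calc s * b ≤ |s * b| := le_abs_self _
        _ = |s| * |b| := abs_mul _ _
        _ ≤ |s| * K := mul_le_mul_of_nonneg_left hb (abs_nonneg _)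
    have h4 : ∑ i, (s * a i) ^ 2 = s ^ 2 * ∑ i, a i ^ 2 := by
      rw [Finset.mul_sum]
      exact Finset.sum_congr rfl fun i _ => by ring
    have h5 : s ^ 2 * ∑ i, a i ^ 2 ≤ s ^ 2 * K := mul_le_mul_of_nonneg_left ha (sq_nonneg _)
    rw [h4]
    linarith

theorem exp_sum_le (n : ℕ) (t : Fin n → ℝ) :
    Real.exp (∑ v, t v) ≤ 1 + ∑ v, Real.exp (n * t v) := by
  rcases Nat.eq_zero_or_pos n with h | h
  · subst h
    simp
  · have : Nonempty (Fin n) := ⟨⟨0, h⟩⟩
    obtain ⟨v0, hv0⟩ := Finite.exists_max t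
    have h1 : ∑ v, t v ≤ n * t v0 := by
      calc ∑ v, t v ≤ ∑ _v : Fin n, t v0 := Finset.sum_le_sum fun v _ => hv0 v
        _ = n * t v0 := by simp
    have h2 : Real.exp (n * t v0) ≤ ∑ v, Real.exp (n * t v) :=
      Finset.single_le_sum (f := fun v => Real.exp (n * t v)) (fun v _ => (Real.exp_pos _).le)
        (Finset.mem_univ v0)
    have h3 := Real.exp_le_exp.mpr h1
    linarith

theorem gam : GamStmt := by
  intro m n K
  set E : ℝ := Real.exp (n * K + n ^ 2 * K / 2) with hE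
  refine ⟨m.factorial * (Real.exp 1 * (1 + ∑ _v : Fin n, (E + E))), ?_, ?_⟩
  · have := Real.exp_pos (n * K + n ^ 2 * K / 2)
    have h1 : 0 ≤ ∑ _v : Fin n, (E + E) := Finset.sum_nonneg fun _ _ => by positivity
    positivity
  intro ι _ a b hb ha
  have key : ∀ y : ι → ℝ, (1 + ∑ v, |b v + ∑ i, y i * a v i|) ^ m ≤
      m.factorial * (Real.exp 1 * (1 + ∑ v, (Real.exp ((n : ℝ) * (b v + ∑ i, y i * a v i)) +
        Real.exp ((-n : ℝ) * (b v + ∑ i, y i * a v i))))) := by
    intro y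
    have h0 : 0 ≤ 1 + ∑ v, |b v + ∑ i, y i * a v i| := by
      have : 0 ≤ ∑ v, |b v + ∑ i, y i * a v i| := Finset.sum_nonneg fun _ _ => abs_nonneg _
      linarith
    have h1 := Real.pow_div_factorial_le_exp _ h0 m
    have h2 : (0 : ℝ) < m.factorial := by exact_mod_cast m.factorial_pos
    rw [div_le_iff₀ h2] at h1
    rw [mul_comm] at h1
    refine h1.trans (mul_le_mul_of_nonneg_left ?_ h2.le)
    rw [Real.exp_add]
    refine mul_le_mul_of_nonneg_left ?_ (Real.exp_pos _).le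
    refine (exp_sum_le n _).trans ?_
    have h3 : ∀ v : Fin n, Real.exp (n * |b v + ∑ i, y i * a v i|) ≤
        Real.exp ((n : ℝ) * (b v + ∑ i, y i * a v i)) +
        Real.exp ((-n : ℝ) * (b v + ∑ i, y i * a v i)) := by
      intro v
      have h4 : (n : ℝ) * |b v + ∑ i, y i * a v i| = |(n : ℝ) * (b v + ∑ i, y i * a v i)| := by
        rw [abs_mul, abs_of_nonneg (Nat.cast_nonneg n : (0 : ℝ) ≤ (n : ℝ))]
      rw [h4, neg_mul]
      exact Real.exp_abs_le _
    have := Finset.sum_le_sum (s := Finset.univ) fun v _ => h3 v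
    linarith
  have hp : ∀ v : Fin n, Integrable (fun y : ι → ℝ =>
      Real.exp ((n : ℝ) * (b v + ∑ i, y i * a v i)) +
        Real.exp ((-n : ℝ) * (b v + ∑ i, y i * a v i))) (γn ι) := fun v =>
    (exp_aff (n : ℝ) (b v) K (a v) (hb v) (ha v)).1.add
      (exp_aff (-n : ℝ) (b v) K (a v) (hb v) (ha v)).1
  have hG : Integrable (fun y : ι → ℝ =>
      m.factorial * (Real.exp 1 * (1 + ∑ v, (Real.exp ((n : ℝ) * (b v + ∑ i, y i * a v i)) +
        Real.exp ((-n : ℝ) * (b v + ∑ i, y i * a v i)))))) (γn ι) :=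
    (((integrable_const (1 : ℝ)).add (integrable_finsetSum _ fun v _ => hp v)).const_mul
      _).const_mul _
  have hF : Integrable (fun y : ι → ℝ => (1 + ∑ v, |b v + ∑ i, y i * a v i|) ^ m) (γn ι) := by
    refine hG.mono' ?_ (Filter.Eventually.of_forall fun y => ?_)
    · refine Continuous.aestronglyMeasurable ?_
      fun_prop
    · have h0 : 0 ≤ 1 + ∑ v, |b v + ∑ i, y i * a v i| := by
        have : 0 ≤ ∑ v, |b v + ∑ i, y i * a v i| := Finset.sum_nonneg fun _ _ => abs_nonneg _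
        linarith
      rw [Real.norm_of_nonneg (pow_nonneg h0 m)]
      exact key y
  refine ⟨hF, (integral_mono hF hG key).trans ?_⟩
  rw [integral_const_mul, integral_const_mul]
  refine mul_le_mul_of_nonneg_left (mul_le_mul_of_nonneg_left ?_ (Real.exp_pos _).le)
    (Nat.cast_nonneg _)
  rw [integral_add (integrable_const (1 : ℝ)) (integrable_finsetSum _ fun v _ => hp v),
    integral_finsetSum _ fun v _ => hp v]
  have h1 : ∫ _y : ι → ℝ, (1 : ℝ) ∂(γn ι) = 1 := by simp
  rw [h1]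
  refine add_le_add le_rfl (Finset.sum_le_sum fun v _ => ?_)
  rw [integral_add (exp_aff (n : ℝ) (b v) K (a v) (hb v) (ha v)).1
      (exp_aff (-n : ℝ) (b v) K (a v) (hb v) (ha v)).1]
  refine add_le_add ?_ ?_
  · have h2 := (exp_aff (n : ℝ) (b v) K (a v) (hb v) (ha v)).2
    rwa [abs_of_nonneg (Nat.cast_nonneg n)] at h2
  · have h2 := (exp_aff (-n : ℝ) (b v) K (a v) (hb v) (ha v)).2
    rwa [abs_neg, abs_of_nonneg (Nat.cast_nonneg n), neg_sq] at h2

end Pool.Agent.FTU.H47
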